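import Pool.Agent.Helper25.TY.SFin
import Pool.Agent.Gen.TY.S.A0_00
import Pool.Agent.Gen.TY.S.A0_01
import Pool.Agent.Gen.TY.S.A2_00
import Pool.Agent.Gen.TY.S.A2_01
import Pool.Agent.Gen.TY.S.A2_02
import Pool.Agent.Gen.TY.S.A4_00
import Pool.Agent.Gen.TY.S.A4_01
import Pool.Agent.Gen.TY.S.A4_02
import Pool.Agent.Gen.TY.S.A4_03
import Pool.Agent.Gen.TY.S.A4_04
import Pool.Agent.Gen.TY.S.A4_05
import Pool.Agent.Gen.TY.S.A4_06
import Pool.Agent.Gen.TY.S.A4_07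
import Pool.Agent.Gen.TY.S.A4_08
import Pool.Agent.Gen.TY.S.A4_09
import Pool.Agent.Gen.TY.S.A4_10
import Pool.Agent.Gen.TY.S.A4_11
import Pool.Agent.Gen.TY.S.A4_12
import Pool.Agent.Gen.TY.S.A4_13
import Pool.Agent.Gen.TY.S.A4_14
import Pool.Agent.Gen.TY.S.A4_15
import Pool.Agent.Gen.TY.S.A4_16
import Pool.Agent.Gen.TY.S.A4_17
import Pool.Agent.Gen.TY.S.A4_18
import Pool.Agent.Gen.TY.S.A4_19
import Pool.Agent.Gen.TY.S.A4_20
import Pool.Agent.Gen.TY.S.A4_21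
import Pool.Agent.Gen.TY.S.B0_00
import Pool.Agent.Gen.TY.S.B0_01
import Pool.Agent.Gen.TY.S.B2_00
import Pool.Agent.Gen.TY.S.B2_01
import Pool.Agent.Gen.TY.S.B4_00
import Pool.Agent.Gen.TY.S.B4_01
import Pool.Agent.Gen.TY.S.B4_02
import Pool.Agent.Gen.TY.S.B4_03
import Pool.Agent.Gen.TY.S.B4_04
import Pool.Agent.Gen.TY.S.B4_05
import Pool.Agent.Gen.TY.S.B4_06
import Pool.Agent.Gen.TY.S.B4_07
import Pool.Agent.Gen.TY.S.B4_08
import Pool.Agent.Gen.TY.S.B4_09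
import Pool.Agent.Gen.TY.S.B4_10
import Pool.Agent.Gen.TY.S.B4_11
import Pool.Agent.Gen.TY.S.B4_12
import Pool.Agent.Gen.TY.S.B4_13
import Pool.Agent.Gen.TY.S.B4_14
import Pool.Agent.Gen.TY.S.B4_15
import Pool.Agent.Gen.TY.S.B4_16
import Pool.Agent.Gen.TY.S.B4_17
import Pool.Agent.Gen.TY.S.B4_18
import Pool.Agent.Gen.TY.S.B4_19
import Pool.Agent.Gen.TY.S.B4_20

/-!
MP_8ee768_co, project TH-Y', stage S: all the units (printed by h25_sfin.py).
-/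

set_option autoImplicit false

namespace Pool.Agent.Gen.TY.S

open Pool.Agent.Helper25.TY
open Pool.Agent.Gen.TY.EN

theorem d4_a4_0 (hg : GOK) : DeadE 4 rsA a4_0 :=
  fullA (.cons (mA hg _root_.Pool.Agent.Gen.TY.S.A4_00.ok rfl) .nil) 500 (by decide +kernel) (by decide +kernel)

theorem d4_a4_1 (hg : GOK) : DeadE 4 rsA a4_1 :=
  fullA (.cons (mA hg _root_.Pool.Agent.Gen.TY.S.A4_01.ok rfl) .nil) 500 (by decide +kernel) (by decide +kernel)

theorem d4_a4_2 (hg : GOK) : DeadE 4 rsA a4_2 :=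
  fullA (.cons (mA hg _root_.Pool.Agent.Gen.TY.S.A4_02.ok rfl) .nil) 500 (by decide +kernel) (by decide +kernel)

theorem d4_a4_3 (hg : GOK) : DeadE 4 rsA a4_3 :=
  fullA (.cons (mA hg _root_.Pool.Agent.Gen.TY.S.A4_03.ok rfl) .nil) 500 (by decide +kernel) (by decide +kernel)

theorem d4_a4_4 (hg : GOK) : DeadE 4 rsA a4_4 :=
  fullA (.cons (mA hg _root_.Pool.Agent.Gen.TY.S.A4_04.ok rfl) .nil) 500 (by decide +kernel) (by decide +kernel)

theorem d4_a4_5 (hg : GOK) : DeadE 4 rsA a4_5 :=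
  fullA (.cons (mA hg _root_.Pool.Agent.Gen.TY.S.A4_05.ok rfl) .nil) 500 (by decide +kernel) (by decide +kernel)

theorem d4_a4_6 (hg : GOK) : DeadE 4 rsA a4_6 :=
  fullA (.cons (mA hg _root_.Pool.Agent.Gen.TY.S.A4_06.ok rfl) .nil) 500 (by decide +kernel) (by decide +kernel)

theorem d4_a4_7 (hg : GOK) : DeadE 4 rsA a4_7 :=
  fullA (.cons (mA hg _root_.Pool.Agent.Gen.TY.S.A4_07.ok rfl) .nil) 500 (by decide +kernel) (by decide +kernel)

theorem d4_a4_8 (hg : GOK) : DeadE 4 rsA a4_8 :=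
  fullA (.cons (mA hg _root_.Pool.Agent.Gen.TY.S.A4_08.ok rfl) .nil) 500 (by decide +kernel) (by decide +kernel)

theorem d4_a4_9 (hg : GOK) : DeadE 4 rsA a4_9 :=
  fullA (.cons (mA hg _root_.Pool.Agent.Gen.TY.S.A4_09.ok rfl) .nil) 500 (by decide +kernel) (by decide +kernel)

theorem d4_a4_10 (hg : GOK) : DeadE 4 rsA a4_10 :=
  fullA (.cons (mA hg _root_.Pool.Agent.Gen.TY.S.A4_10.ok rfl) .nil) 500 (by decide +kernel) (by decide +kernel)

theorem d4_a4_11 (hg : GOK) : DeadE 4 rsA a4_11 :=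
  fullA (.cons (mA hg _root_.Pool.Agent.Gen.TY.S.A4_11.ok rfl) .nil) 500 (by decide +kernel) (by decide +kernel)

theorem d4_a4_12 (hg : GOK) : DeadE 4 rsA a4_12 :=
  fullA (.cons (mA hg _root_.Pool.Agent.Gen.TY.S.A4_12.ok rfl) .nil) 500 (by decide +kernel) (by decide +kernel)

theorem d4_a4_13 (hg : GOK) : DeadE 4 rsA a4_13 :=
  fullA (.cons (mA hg _root_.Pool.Agent.Gen.TY.S.A4_13.ok rfl) .nil) 500 (by decide +kernel) (by decide +kernel)

theorem d4_a4_14 (hg : GOK) : DeadE 4 rsA a4_14 :=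
  fullA (.cons (mA hg _root_.Pool.Agent.Gen.TY.S.A4_14.ok rfl) .nil) 500 (by decide +kernel) (by decide +kernel)

theorem d4_a4_15 (hg : GOK) : DeadE 4 rsA a4_15 :=
  fullA (.cons (mA hg _root_.Pool.Agent.Gen.TY.S.A4_15.ok rfl) .nil) 500 (by decide +kernel) (by decide +kernel)

theorem d4_a4_16 (hg : GOK) : DeadE 4 rsA a4_16 :=
  fullA (.cons (mA hg _root_.Pool.Agent.Gen.TY.S.A4_16.ok rfl) .nil) 500 (by decide +kernel) (by decide +kernel)

theorem d4_a4_17 (hg : GOK) : DeadE 4 rsA a4_17 :=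
  fullA (.cons (mA hg _root_.Pool.Agent.Gen.TY.S.A4_17.ok rfl) .nil) 500 (by decide +kernel) (by decide +kernel)

theorem d4_a4_18 (hg : GOK) : DeadE 4 rsA a4_18 :=
  fullA (.cons (mA hg _root_.Pool.Agent.Gen.TY.S.A4_18.ok rfl) .nil) 500 (by decide +kernel) (by decide +kernel)

theorem d4_a4_19 (hg : GOK) : DeadE 4 rsA a4_19 :=
  fullA (.cons (mA hg _root_.Pool.Agent.Gen.TY.S.A4_19.ok rfl) .nil) 500 (by decide +kernel) (by decide +kernel)

theorem d4_a4_20 (hg : GOK) : DeadE 4 rsA a4_20 :=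
  fullA (.cons (mA hg _root_.Pool.Agent.Gen.TY.S.A4_20.ok rfl) .nil) 500 (by decide +kernel) (by decide +kernel)

theorem d4_a4_21 (hg : GOK) : DeadE 4 rsA a4_21 :=
  fullA (.cons (mA hg _root_.Pool.Agent.Gen.TY.S.A4_21.ok rfl) .nil) 71 (by decide +kernel) (by decide +kernel)

theorem d2_a2_0 (hg : GOK) : DeadE 2 rsA a2_0 :=
  fullA (.cons (mA hg _root_.Pool.Agent.Gen.TY.S.A2_00.ok rfl) <|
    .cons (mA hg _root_.Pool.Agent.Gen.TY.S.A2_01.ok rfl) .nil) 500 (by decide +kernel) (by decide +kernel)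

theorem d2_a2_1 (hg : GOK) : DeadE 2 rsA a2_1 :=
  fullA (.cons (mA hg _root_.Pool.Agent.Gen.TY.S.A2_02.ok rfl) .nil) 89 (by decide +kernel) (by decide +kernel)

theorem d0_gA_0 (hg : GOK) : DeadE 0 ((rA0.take 1).map fun r => (0, r)) gA_0 :=
  grpA_of (j := 0) (.cons (m0A hg _root_.Pool.Agent.Gen.TY.S.A0_00.ok_gA_0 rfl) .nil) 2 (by decide +kernel) (by decide +kernel)

theorem d0_gA_1 (hg : GOK) : DeadE 0 ((rA0.take 2).map fun r => (0, r)) gA_1 :=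
  grpA_of (j := 1) (.cons (m0A hg _root_.Pool.Agent.Gen.TY.S.A0_00.ok_gA_1 rfl) .nil) 2 (by decide +kernel) (by decide +kernel)

theorem d0_gA_2 (hg : GOK) : DeadE 0 ((rA0.take 3).map fun r => (0, r)) gA_2 :=
  grpA_of (j := 2) (.cons (m0A hg _root_.Pool.Agent.Gen.TY.S.A0_00.ok_gA_2 rfl) .nil) 2 (by decide +kernel) (by decide +kernel)

theorem d0_gA_3 (hg : GOK) : DeadE 0 ((rA0.take 4).map fun r => (0, r)) gA_3 :=
  grpA_of (j := 3) (.cons (m0A hg _root_.Pool.Agent.Gen.TY.S.A0_00.ok_gA_3 rfl) .nil) 1 (by decide +kernel) (by decide +kernel)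

theorem d0_gA_4 (hg : GOK) : DeadE 0 ((rA0.take 5).map fun r => (0, r)) gA_4 :=
  grpA_of (j := 4) (.cons (m0A hg _root_.Pool.Agent.Gen.TY.S.A0_00.ok_gA_4 rfl) .nil) 6 (by decide +kernel) (by decide +kernel)

theorem d0_gA_5 (hg : GOK) : DeadE 0 ((rA0.take 6).map fun r => (0, r)) gA_5 :=
  grpA_of (j := 5) (.cons (m0A hg _root_.Pool.Agent.Gen.TY.S.A0_00.ok_gA_5 rfl) .nil) 3 (by decide +kernel) (by decide +kernel)

theorem d0_gA_6 (hg : GOK) : DeadE 0 ((rA0.take 7).map fun r => (0, r)) gA_6 :=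
  grpA_of (j := 6) (.cons (m0A hg _root_.Pool.Agent.Gen.TY.S.A0_00.ok_gA_6 rfl) .nil) 3 (by decide +kernel) (by decide +kernel)

theorem d0_gA_7 (hg : GOK) : DeadE 0 ((rA0.take 8).map fun r => (0, r)) gA_7 :=
  grpA_of (j := 7) (.cons (m0A hg _root_.Pool.Agent.Gen.TY.S.A0_00.ok_gA_7 rfl) .nil) 6 (by decide +kernel) (by decide +kernel)

theorem d0_gA_8 (hg : GOK) : DeadE 0 ((rA0.take 9).map fun r => (0, r)) gA_8 :=
  grpA_of (j := 8) (.cons (m0A hg _root_.Pool.Agent.Gen.TY.S.A0_00.ok_gA_8 rfl) .nil) 3 (by decide +kernel) (by decide +kernel)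

theorem d0_gA_9 (hg : GOK) : DeadE 0 ((rA0.take 10).map fun r => (0, r)) gA_9 :=
  grpA_of (j := 9) (.cons (m0A hg _root_.Pool.Agent.Gen.TY.S.A0_00.ok_gA_9 rfl) .nil) 3 (by decide +kernel) (by decide +kernel)

theorem d0_gA_10 (hg : GOK) : DeadE 0 ((rA0.take 11).map fun r => (0, r)) gA_10 :=
  grpA_of (j := 10) (.cons (m0A hg _root_.Pool.Agent.Gen.TY.S.A0_00.ok_gA_10 rfl) .nil) 6 (by decide +kernel) (by decide +kernel)

theorem d0_gA_11 (hg : GOK) : DeadE 0 ((rA0.take 12).map fun r => (0, r)) gA_11 :=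
  grpA_of (j := 11) (.cons (m0A hg _root_.Pool.Agent.Gen.TY.S.A0_00.ok_gA_11 rfl) .nil) 6 (by decide +kernel) (by decide +kernel)

theorem d0_gA_12 (hg : GOK) : DeadE 0 ((rA0.take 13).map fun r => (0, r)) gA_12 :=
  grpA_of (j := 12) (.cons (m0A hg _root_.Pool.Agent.Gen.TY.S.A0_00.ok_gA_12 rfl) .nil) 6 (by decide +kernel) (by decide +kernel)

theorem d0_gA_13 (hg : GOK) : DeadE 0 ((rA0.take 14).map fun r => (0, r)) gA_13 :=
  grpA_of (j := 13) (.cons (m0A hg _root_.Pool.Agent.Gen.TY.S.A0_00.ok_gA_13 rfl) .nil) 6 (by decide +kernel) (by decide +kernel)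

theorem d0_gA_14 (hg : GOK) : DeadE 0 ((rA0.take 15).map fun r => (0, r)) gA_14 :=
  grpA_of (j := 14) (.cons (m0A hg _root_.Pool.Agent.Gen.TY.S.A0_00.ok_gA_14 rfl) <|
    .cons (m0A hg _root_.Pool.Agent.Gen.TY.S.A0_01.ok_gA_14 rfl) .nil) 6 (by decide +kernel) (by decide +kernel)

theorem d0_gA_15 (hg : GOK) : DeadE 0 ((rA0.take 16).map fun r => (0, r)) gA_15 :=
  grpA_of (j := 15) (.cons (m0A hg _root_.Pool.Agent.Gen.TY.S.A0_01.ok_gA_15 rfl) .nil) 6 (by decide +kernel) (by decide +kernel)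

theorem d4_b4_0 (hg : GOK) : DeadE 4 rsB b4_0 :=
  fullB (.cons (mB hg _root_.Pool.Agent.Gen.TY.S.B4_00.ok rfl) .nil) 500 (by decide +kernel) (by decide +kernel)

theorem d4_b4_1 (hg : GOK) : DeadE 4 rsB b4_1 :=
  fullB (.cons (mB hg _root_.Pool.Agent.Gen.TY.S.B4_01.ok rfl) .nil) 500 (by decide +kernel) (by decide +kernel)

theorem d4_b4_2 (hg : GOK) : DeadE 4 rsB b4_2 :=
  fullB (.cons (mB hg _root_.Pool.Agent.Gen.TY.S.B4_02.ok rfl) .nil) 500 (by decide +kernel) (by decide +kernel)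

theorem d4_b4_3 (hg : GOK) : DeadE 4 rsB b4_3 :=
  fullB (.cons (mB hg _root_.Pool.Agent.Gen.TY.S.B4_03.ok rfl) .nil) 500 (by decide +kernel) (by decide +kernel)

theorem d4_b4_4 (hg : GOK) : DeadE 4 rsB b4_4 :=
  fullB (.cons (mB hg _root_.Pool.Agent.Gen.TY.S.B4_04.ok rfl) .nil) 500 (by decide +kernel) (by decide +kernel)

theorem d4_b4_5 (hg : GOK) : DeadE 4 rsB b4_5 :=
  fullB (.cons (mB hg _root_.Pool.Agent.Gen.TY.S.B4_05.ok rfl) .nil) 500 (by decide +kernel) (by decide +kernel)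

theorem d4_b4_6 (hg : GOK) : DeadE 4 rsB b4_6 :=
  fullB (.cons (mB hg _root_.Pool.Agent.Gen.TY.S.B4_06.ok rfl) .nil) 500 (by decide +kernel) (by decide +kernel)

theorem d4_b4_7 (hg : GOK) : DeadE 4 rsB b4_7 :=
  fullB (.cons (mB hg _root_.Pool.Agent.Gen.TY.S.B4_07.ok rfl) .nil) 500 (by decide +kernel) (by decide +kernel)

theorem d4_b4_8 (hg : GOK) : DeadE 4 rsB b4_8 :=
  fullB (.cons (mB hg _root_.Pool.Agent.Gen.TY.S.B4_08.ok rfl) .nil) 500 (by decide +kernel) (by decide +kernel)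

theorem d4_b4_9 (hg : GOK) : DeadE 4 rsB b4_9 :=
  fullB (.cons (mB hg _root_.Pool.Agent.Gen.TY.S.B4_09.ok rfl) .nil) 500 (by decide +kernel) (by decide +kernel)

theorem d4_b4_10 (hg : GOK) : DeadE 4 rsB b4_10 :=
  fullB (.cons (mB hg _root_.Pool.Agent.Gen.TY.S.B4_10.ok rfl) .nil) 500 (by decide +kernel) (by decide +kernel)

theorem d4_b4_11 (hg : GOK) : DeadE 4 rsB b4_11 :=
  fullB (.cons (mB hg _root_.Pool.Agent.Gen.TY.S.B4_11.ok rfl) .nil) 500 (by decide +kernel) (by decide +kernel)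

theorem d4_b4_12 (hg : GOK) : DeadE 4 rsB b4_12 :=
  fullB (.cons (mB hg _root_.Pool.Agent.Gen.TY.S.B4_12.ok rfl) .nil) 500 (by decide +kernel) (by decide +kernel)

theorem d4_b4_13 (hg : GOK) : DeadE 4 rsB b4_13 :=
  fullB (.cons (mB hg _root_.Pool.Agent.Gen.TY.S.B4_13.ok rfl) .nil) 500 (by decide +kernel) (by decide +kernel)

theorem d4_b4_14 (hg : GOK) : DeadE 4 rsB b4_14 :=
  fullB (.cons (mB hg _root_.Pool.Agent.Gen.TY.S.B4_14.ok rfl) .nil) 500 (by decide +kernel) (by decide +kernel)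

theorem d4_b4_15 (hg : GOK) : DeadE 4 rsB b4_15 :=
  fullB (.cons (mB hg _root_.Pool.Agent.Gen.TY.S.B4_15.ok rfl) .nil) 500 (by decide +kernel) (by decide +kernel)

theorem d4_b4_16 (hg : GOK) : DeadE 4 rsB b4_16 :=
  fullB (.cons (mB hg _root_.Pool.Agent.Gen.TY.S.B4_16.ok rfl) .nil) 500 (by decide +kernel) (by decide +kernel)

theorem d4_b4_17 (hg : GOK) : DeadE 4 rsB b4_17 :=
  fullB (.cons (mB hg _root_.Pool.Agent.Gen.TY.S.B4_17.ok rfl) .nil) 500 (by decide +kernel) (by decide +kernel)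

theorem d4_b4_18 (hg : GOK) : DeadE 4 rsB b4_18 :=
  fullB (.cons (mB hg _root_.Pool.Agent.Gen.TY.S.B4_18.ok rfl) .nil) 500 (by decide +kernel) (by decide +kernel)

theorem d4_b4_19 (hg : GOK) : DeadE 4 rsB b4_19 :=
  fullB (.cons (mB hg _root_.Pool.Agent.Gen.TY.S.B4_19.ok rfl) .nil) 500 (by decide +kernel) (by decide +kernel)

theorem d4_b4_20 (hg : GOK) : DeadE 4 rsB b4_20 :=
  fullB (.cons (mB hg _root_.Pool.Agent.Gen.TY.S.B4_20.ok rfl) .nil) 167 (by decide +kernel) (by decide +kernel)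

theorem d2_b2_0 (hg : GOK) : DeadE 2 rsB b2_0 :=
  fullB (.cons (mB hg _root_.Pool.Agent.Gen.TY.S.B2_00.ok rfl) .nil) 500 (by decide +kernel) (by decide +kernel)

theorem d2_b2_1 (hg : GOK) : DeadE 2 rsB b2_1 :=
  fullB (.cons (mB hg _root_.Pool.Agent.Gen.TY.S.B2_01.ok rfl) .nil) 227 (by decide +kernel) (by decide +kernel)

theorem d0_gB_0 (hg : GOK) : DeadE 0 ((rB0.take 1).map fun r => (0, r)) gB_0 :=
  grpB_of (j := 0) (.cons (m0B hg _root_.Pool.Agent.Gen.TY.S.B0_00.ok_gB_0 rfl) .nil) 6 (by decide +kernel) (by decide +kernel)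

theorem d0_gB_1 (hg : GOK) : DeadE 0 ((rB0.take 2).map fun r => (0, r)) gB_1 :=
  grpB_of (j := 1) (.cons (m0B hg _root_.Pool.Agent.Gen.TY.S.B0_00.ok_gB_1 rfl) .nil) 3 (by decide +kernel) (by decide +kernel)

theorem d0_gB_2 (hg : GOK) : DeadE 0 ((rB0.take 3).map fun r => (0, r)) gB_2 :=
  grpB_of (j := 2) (.cons (m0B hg _root_.Pool.Agent.Gen.TY.S.B0_00.ok_gB_2 rfl) .nil) 1 (by decide +kernel) (by decide +kernel)

theorem d0_gB_3 (hg : GOK) : DeadE 0 ((rB0.take 4).map fun r => (0, r)) gB_3 :=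
  grpB_of (j := 3) (.cons (m0B hg _root_.Pool.Agent.Gen.TY.S.B0_00.ok_gB_3 rfl) .nil) 4 (by decide +kernel) (by decide +kernel)

theorem d0_gB_4 (hg : GOK) : DeadE 0 ((rB0.take 5).map fun r => (0, r)) gB_4 :=
  grpB_of (j := 4) (.cons (m0B hg _root_.Pool.Agent.Gen.TY.S.B0_00.ok_gB_4 rfl) .nil) 2 (by decide +kernel) (by decide +kernel)

theorem d0_gB_5 (hg : GOK) : DeadE 0 ((rB0.take 6).map fun r => (0, r)) gB_5 :=
  grpB_of (j := 5) (.cons (m0B hg _root_.Pool.Agent.Gen.TY.S.B0_00.ok_gB_5 rfl) .nil) 12 (by decide +kernel) (by decide +kernel)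

theorem d0_gB_6 (hg : GOK) : DeadE 0 ((rB0.take 7).map fun r => (0, r)) gB_6 :=
  grpB_of (j := 6) (.cons (m0B hg _root_.Pool.Agent.Gen.TY.S.B0_00.ok_gB_6 rfl) .nil) 6 (by decide +kernel) (by decide +kernel)

theorem d0_gB_7 (hg : GOK) : DeadE 0 ((rB0.take 8).map fun r => (0, r)) gB_7 :=
  grpB_of (j := 7) (.cons (m0B hg _root_.Pool.Agent.Gen.TY.S.B0_00.ok_gB_7 rfl) .nil) 12 (by decide +kernel) (by decide +kernel)

theorem d0_gB_8 (hg : GOK) : DeadE 0 ((rB0.take 9).map fun r => (0, r)) gB_8 :=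
  grpB_of (j := 8) (.cons (m0B hg _root_.Pool.Agent.Gen.TY.S.B0_00.ok_gB_8 rfl) .nil) 12 (by decide +kernel) (by decide +kernel)

theorem d0_gB_9 (hg : GOK) : DeadE 0 ((rB0.take 10).map fun r => (0, r)) gB_9 :=
  grpB_of (j := 9) (.cons (m0B hg _root_.Pool.Agent.Gen.TY.S.B0_00.ok_gB_9 rfl) .nil) 12 (by decide +kernel) (by decide +kernel)

theorem d0_gB_10 (hg : GOK) : DeadE 0 ((rB0.take 11).map fun r => (0, r)) gB_10 :=
  grpB_of (j := 10) (.cons (m0B hg _root_.Pool.Agent.Gen.TY.S.B0_00.ok_gB_10 rfl) .nil) 6 (by decide +kernel) (by decide +kernel)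

theorem d0_gB_11 (hg : GOK) : DeadE 0 ((rB0.take 12).map fun r => (0, r)) gB_11 :=
  grpB_of (j := 11) (.cons (m0B hg _root_.Pool.Agent.Gen.TY.S.B0_00.ok_gB_11 rfl) .nil) 12 (by decide +kernel) (by decide +kernel)

theorem d0_gB_12 (hg : GOK) : DeadE 0 ((rB0.take 13).map fun r => (0, r)) gB_12 :=
  grpB_of (j := 12) (.cons (m0B hg _root_.Pool.Agent.Gen.TY.S.B0_00.ok_gB_12 rfl) .nil) 12 (by decide +kernel) (by decide +kernel)

theorem d0_gB_13 (hg : GOK) : DeadE 0 ((rB0.take 14).map fun r => (0, r)) gB_13 :=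
  grpB_of (j := 13) (.cons (m0B hg _root_.Pool.Agent.Gen.TY.S.B0_00.ok_gB_13 rfl) .nil) 12 (by decide +kernel) (by decide +kernel)

theorem d0_gB_14 (hg : GOK) : DeadE 0 ((rB0.take 15).map fun r => (0, r)) gB_14 :=
  grpB_of (j := 14) (.cons (m0B hg _root_.Pool.Agent.Gen.TY.S.B0_00.ok_gB_14 rfl) <|
    .cons (m0B hg _root_.Pool.Agent.Gen.TY.S.B0_01.ok_gB_14 rfl) .nil) 12 (by decide +kernel) (by decide +kernel)

theorem d0_gB_15 (hg : GOK) : DeadE 0 ((rB0.take 16).map fun r => (0, r)) gB_15 :=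
  grpB_of (j := 15) (.cons (m0B hg _root_.Pool.Agent.Gen.TY.S.B0_01.ok_gB_15 rfl) .nil) 6 (by decide +kernel) (by decide +kernel)

theorem d0_gB_16 (hg : GOK) : DeadE 0 ((rB0.take 17).map fun r => (0, r)) gB_16 :=
  grpB_of (j := 16) (.cons (m0B hg _root_.Pool.Agent.Gen.TY.S.B0_01.ok_gB_16 rfl) .nil) 6 (by decide +kernel) (by decide +kernel)

/-- **all pairs with `b = 4`** -/
theorem dead4 (hg : GOK) : Dead4 where
  a := .allE_cons (d4_a4_0 hg) <|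
    .allE_cons (d4_a4_1 hg) <|
    .allE_cons (d4_a4_2 hg) <|
    .allE_cons (d4_a4_3 hg) <|
    .allE_cons (d4_a4_4 hg) <|
    .allE_cons (d4_a4_5 hg) <|
    .allE_cons (d4_a4_6 hg) <|
    .allE_cons (d4_a4_7 hg) <|
    .allE_cons (d4_a4_8 hg) <|
    .allE_cons (d4_a4_9 hg) <|
    .allE_cons (d4_a4_10 hg) <|
    .allE_cons (d4_a4_11 hg) <|
    .allE_cons (d4_a4_12 hg) <|
    .allE_cons (d4_a4_13 hg) <|
    .allE_cons (d4_a4_14 hg) <|
    .allE_cons (d4_a4_15 hg) <|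
    .allE_cons (d4_a4_16 hg) <|
    .allE_cons (d4_a4_17 hg) <|
    .allE_cons (d4_a4_18 hg) <|
    .allE_cons (d4_a4_19 hg) <|
    .allE_cons (d4_a4_20 hg) <|
    .allE_cons (d4_a4_21 hg) .allE_nil
  b := .allE_cons (d4_b4_0 hg) <|
    .allE_cons (d4_b4_1 hg) <|
    .allE_cons (d4_b4_2 hg) <|
    .allE_cons (d4_b4_3 hg) <|
    .allE_cons (d4_b4_4 hg) <|
    .allE_cons (d4_b4_5 hg) <|
    .allE_cons (d4_b4_6 hg) <|
    .allE_cons (d4_b4_7 hg) <|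
    .allE_cons (d4_b4_8 hg) <|
    .allE_cons (d4_b4_9 hg) <|
    .allE_cons (d4_b4_10 hg) <|
    .allE_cons (d4_b4_11 hg) <|
    .allE_cons (d4_b4_12 hg) <|
    .allE_cons (d4_b4_13 hg) <|
    .allE_cons (d4_b4_14 hg) <|
    .allE_cons (d4_b4_15 hg) <|
    .allE_cons (d4_b4_16 hg) <|
    .allE_cons (d4_b4_17 hg) <|
    .allE_cons (d4_b4_18 hg) <|
    .allE_cons (d4_b4_19 hg) <|
    .allE_cons (d4_b4_20 hg) .allE_nil

/-- **all pairs with `b = 2`** -/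
theorem dead2 (hg : GOK) : Dead2 where
  a := .allE_cons (d2_a2_0 hg) <|
    .allE_cons (d2_a2_1 hg) .allE_nil
  b := .allE_cons (d2_b2_0 hg) <|
    .allE_cons (d2_b2_1 hg) .allE_nil

/-- **all pairs with `b = 0`** -/
theorem dead0 (hg : GOK) : Dead0 where
  a j hj := by
    interval_cases j
    · exact d0_gA_0 hg
    · exact d0_gA_1 hg
    · exact d0_gA_2 hg
    · exact d0_gA_3 hg
    · exact d0_gA_4 hg
    · exact d0_gA_5 hg
    · exact d0_gA_6 hg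
    · exact d0_gA_7 hg
    · exact d0_gA_8 hg
    · exact d0_gA_9 hg
    · exact d0_gA_10 hg
    · exact d0_gA_11 hg
    · exact d0_gA_12 hg
    · exact d0_gA_13 hg
    · exact d0_gA_14 hg
    · exact d0_gA_15 hg
  b j hj := by
    interval_cases j
    · exact d0_gB_0 hg
    · exact d0_gB_1 hg
    · exact d0_gB_2 hg
    · exact d0_gB_3 hg
    · exact d0_gB_4 hg
    · exact d0_gB_5 hg
    · exact d0_gB_6 hg
    · exact d0_gB_7 hg
    · exact d0_gB_8 hg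
    · exact d0_gB_9 hg
    · exact d0_gB_10 hg
    · exact d0_gB_11 hg
    · exact d0_gB_12 hg
    · exact d0_gB_13 hg
    · exact d0_gB_14 hg
    · exact d0_gB_15 hg
    · exact d0_gB_16 hg

end Pool.Agent.Gen.TY.S
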